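import Mathlib

/-!
Definitions for `G = SL(2,ℝ) × SL(2,ℝ)` with `Θ = Δ` (both simple roots): Cartan decomposition,
flag manifold, transversality, regular quasi-isometric embeddings and their limit sets.
-/

namespace Pool.Agent.TS

open Filter Topology Matrix

/-- Any two points of `Z` are joined by a (discrete) quasi-geodesic with uniform constants.
Every geodesic (or length, or quasi-geodesic) metric space has this property. -/
def QuasiGeodesicSpace (Z : Type*) [MetricSpace Z] : Prop :=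
  ∃ c : ℝ, 1 ≤ c ∧ ∀ x y : Z, ∃ (n : ℕ) (γ : ℕ → Z), γ 0 = x ∧ γ n = y ∧
    ∀ j k : ℕ, j ≤ n → k ≤ n → |(j : ℝ) - k| / c - c ≤ dist (γ j) (γ k) ∧
      dist (γ j) (γ k) ≤ c * |(j : ℝ) - k| + c

/-- `SL(2,ℝ)`. -/
abbrev SL2R : Type := Matrix.SpecialLinearGroup (Fin 2) ℝ

/-- The Lie group `G = SL(2,ℝ) × SL(2,ℝ)`. -/
abbrev G : Type := SL2R × SL2R

/-- The maximal compact subgroup `SO(2)` of `SL(2,ℝ)`, as a set. -/
def SO2 : Set SL2R := {k | (k : Matrix (Fin 2) (Fin 2) ℝ)ᵀ * (k : Matrix (Fin 2) (Fin 2) ℝ) = 1}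

/-- The diagonal matrix `diag (e^{t/2}, e^{-t/2})`; the simple root takes the value `t` at its
logarithm. -/
noncomputable def dg (t : ℝ) : SL2R :=
  ⟨!![Real.exp (t / 2), 0; 0, Real.exp (-(t / 2))], by
    rw [det_fin_two_of, mul_zero, sub_zero, ← Real.exp_add]; simp⟩

/-- `Cartan g k k' t`: the Cartan decomposition `g = k exp (κ g) k'` with `k, k'` in
`K = SO(2) × SO(2)` and `α₁ (κ g) = t.1 ≥ 0`, `α₂ (κ g) = t.2 ≥ 0`. -/
structure Cartan (g k k' : G) (t : ℝ × ℝ) : Prop where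
  k1 : k.1 ∈ SO2
  k2 : k.2 ∈ SO2
  k1' : k'.1 ∈ SO2
  k2' : k'.2 ∈ SO2
  t1 : 0 ≤ t.1
  t2 : 0 ≤ t.2
  eq : g = k * (dg t.1, dg t.2) * k'

/-- The subgroup of upper triangular matrices in `SL(2,ℝ)`. -/
def borel : Subgroup SL2R where
  carrier := {g | g 1 0 = 0}
  one_mem' := by
    show (1 : SL2R) 1 0 = 0
    simp
  mul_mem' := by
    intro a b ha hb
    have ha' : a 1 0 = 0 := ha
    have hb' : b 1 0 = 0 := hb
    show (a * b) 1 0 = 0
    have h := congrFun (congrFun (Matrix.SpecialLinearGroup.coe_mul a b) 1) 0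
    rw [mul_apply, Fin.sum_univ_two] at h
    refine h.trans ?_
    rw [ha', hb']; ring
  inv_mem' := by
    intro a ha
    have ha' : a 1 0 = 0 := ha
    show (a⁻¹) 1 0 = 0
    have h := congrFun (congrFun (Matrix.SpecialLinearGroup.coe_inv a) 1) 0
    rw [adjugate_fin_two] at h
    refine h.trans ?_
    simp [ha']

/-- The parabolic subgroup `P_Θ` for `Θ = Δ`. -/
def parab : Subgroup G := borel.prod borel

/-- The flag manifold `F_Θ(G) = G / P_Θ`. -/
abbrev Flag : Type := G ⧸ parab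

/-- The nontrivial Weyl group element of `SL(2,ℝ)`. -/
def weyl : SL2R := ⟨!![0, 1; -1, 0], by rw [det_fin_two_of]; norm_num⟩

/-- Transversality: `(x, y)` lies in the open `G`-orbit, the orbit of `(P_Θ, w P_Θ)`. -/
def Transverse (x y : Flag) : Prop :=
  ∃ g : G, x = (g : Flag) ∧ y = ((g * (weyl, weyl) : G) : Flag)

/-- A transverse sphere in the flag manifold. -/
def IsTransverseSphere (Λ : Set Flag) : Prop :=
  (∃ n : ℕ, 1 ≤ n ∧ Nonempty (Λ ≃ₜ Metric.sphere (0 : EuclideanSpace ℝ (Fin (n + 1))) 1)) ∧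
    ∀ x ∈ Λ, ∀ y ∈ Λ, x ≠ y → Transverse x y

/-- `f z = g z • K` is a `Θ`-uniformly regular quasi-isometric embedding of `Z` into `X = G / K`.
The invariant distance of `g K` and `g' K` is the norm of the Cartan projection of `g⁻¹ g'`. -/
def RegularQI {Z : Type*} [MetricSpace Z] (g : Z → G) : Prop :=
  ∃ L A : ℝ, 1 ≤ L ∧ 0 ≤ A ∧ ∀ (z z' : Z) (k k' : G) (t : ℝ × ℝ),
    Cartan ((g z)⁻¹ * g z') k k' t →
      √(t.1 ^ 2 + t.2 ^ 2) ≤ L * dist z z' + A ∧
      L⁻¹ * dist z z' - A ≤ t.1 ∧ L⁻¹ * dist z z' - A ≤ t.2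

/-- The `Θ`-limit set of `f z = g z • K`: all limits of `U_Θ (g (z m)) = k m P_Θ` over sequences
`z m` leaving every bounded subset of `Z`. -/
def limitSet {Z : Type*} [MetricSpace Z] (g : Z → G) : Set Flag :=
  {x | ∃ (z : ℕ → Z) (k k' : ℕ → G) (t : ℕ → ℝ × ℝ),
    Tendsto z atTop (Bornology.cobounded Z) ∧
    (∀ m, Cartan (g (z m)) (k m) (k' m) (t m) ∧ 0 < (t m).1 ∧ 0 < (t m).2) ∧
    Tendsto (fun m => (k m : Flag)) atTop (𝓝 x)}

end Pool.Agent.TS
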