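import Pool.Agent.TS.Grp

/-!
Topology of the flag manifold and the transverse circle.
-/

namespace Pool.Agent.TS

open UpperHalfPlane Filter Topology Matrix OnePoint
open scoped ComplexConjugate

lemma parab_iff (g h : G) : g⁻¹ * h ∈ parab ↔ bdry g.1 = bdry h.1 ∧ bdry g.2 = bdry h.2 := by
  rw [bdry_eq_iff, bdry_eq_iff]
  rfl

/-- Boundary coordinates on the flag manifold. -/
noncomputable def beta : Flag → ℂ × ℂ :=
  Quotient.lift (fun g : G => (bdry g.1, bdry g.2)) (by
    intro a b hab
    have h : a⁻¹ * b ∈ parab := QuotientGroup.leftRel_apply.1 hab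
    rw [parab_iff] at h
    exact Prod.ext h.1 h.2)

lemma beta_mk (g : G) : beta (g : Flag) = (bdry g.1, bdry g.2) := rfl

lemma beta_cont : Continuous beta := by
  apply Continuous.quotient_lift
  exact (bdry_cont.comp continuous_fst).prodMk (bdry_cont.comp continuous_snd)

lemma beta_inj : Function.Injective beta := by
  intro x y
  induction x using QuotientGroup.induction_on with
  | H g =>
    induction y using QuotientGroup.induction_on with
    | H h =>
      intro he
      rw [beta_mk, beta_mk] at he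
      rw [QuotientGroup.eq, parab_iff]
      exact ⟨congrArg Prod.fst he, congrArg Prod.snd he⟩

/-- Rotation by `θ`. -/
noncomputable def rotθ (θ : ℝ) : SL2R :=
  rotm (Real.cos θ) (Real.sin θ) (by rw [add_comm]; exact Real.sin_sq_add_cos_sq θ)

lemma rotθ_cont : Continuous rotθ := by
  apply Continuous.subtype_mk
  apply continuous_matrix
  intro i j
  fin_cases i <;> fin_cases j
  · exact Real.continuous_cos
  · exact Real.continuous_sin.neg
  · exact Real.continuous_sin
  · exact Real.continuous_cos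

lemma exists_rotθ (s : SL2R) : ∃ θ ∈ Set.Icc (-Real.pi) Real.pi, bdry (rotθ θ) = bdry s := by
  set v : ℂ := ⟨s 0 0, s 1 0⟩ with hv
  have hvne : v ≠ 0 := by
    intro h
    have h1 := congrArg Complex.re h
    have h2 := congrArg Complex.im h
    have hd := det_eq s
    have h1' : s 0 0 = 0 := h1
    have h2' : s 1 0 = 0 := h2
    rw [h1', h2'] at hd
    norm_num at hd
  refine ⟨v.arg, ⟨(Complex.neg_pi_lt_arg v).le, Complex.arg_le_pi v⟩, ?_⟩
  rw [bdry_eq_iff]
  have e : ((rotθ v.arg)⁻¹ * s) 1 0 = Real.cos v.arg * s 1 0 - Real.sin v.arg * s 0 0 := by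
    have h := congrFun (congrFun (Matrix.SpecialLinearGroup.coe_mul (rotθ v.arg)⁻¹ s) 1) 0
    rw [Matrix.SpecialLinearGroup.coe_inv, adjugate_fin_two, mul_apply, Fin.sum_univ_two] at h
    refine h.trans ?_
    have a1 : rotθ v.arg 1 0 = Real.sin v.arg := rfl
    have a2 : rotθ v.arg 0 0 = Real.cos v.arg := rfl
    simp [a1, a2]
    ring
  rw [e]
  have h1 : s 0 0 = ‖v‖ * Real.cos v.arg := (Complex.norm_mul_cos_arg v).symm
  have h2 : s 1 0 = ‖v‖ * Real.sin v.arg := (Complex.norm_mul_sin_arg v).symm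
  rw [h1, h2]; ring

instance : CompactSpace Flag := by
  constructor
  have h : (Set.univ : Set Flag) =
      (fun p : ℝ × ℝ => (((rotθ p.1, rotθ p.2) : G) : Flag)) ''
        (Set.Icc (-Real.pi) Real.pi ×ˢ Set.Icc (-Real.pi) Real.pi) := by
    symm
    rw [Set.eq_univ_iff_forall]
    intro x
    induction x using QuotientGroup.induction_on with
    | H g =>
      obtain ⟨θ₁, h1, e1⟩ := exists_rotθ g.1
      obtain ⟨θ₂, h2, e2⟩ := exists_rotθ g.2
      refine ⟨(θ₁, θ₂), ⟨h1, h2⟩, ?_⟩
      apply beta_inj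
      rw [beta_mk]
      show (bdry (rotθ θ₁), bdry (rotθ θ₂)) = _
      rw [e1, e2]
      rfl
  rw [h]
  apply IsCompact.image (isCompact_Icc.prod isCompact_Icc)
  apply continuous_quotient_mk'.comp
  exact (rotθ_cont.comp continuous_fst).prodMk (rotθ_cont.comp continuous_snd)

instance : T2Space Flag := T2Space.of_injective_continuous beta_inj beta_cont

lemma beta_emb : IsClosedEmbedding beta := beta_cont.isClosedEmbedding beta_inj

/-- A matrix sending `∞` to the given point. -/
def mt : OnePoint ℝ → SL2R := fun y => OnePoint.rec 1 (fun t : ℝ =>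
  (⟨!![t, -1; 1, 0], by rw [det_fin_two_of]; ring⟩ : SL2R)) y

/-- The Cayley map on the boundary. -/
noncomputable def cay (y : OnePoint ℝ) : ℂ := bdry (mt y)

lemma cay_infty : cay ∞ = 1 := by
  show bdry 1 = 1
  unfold bdry
  have h0 : (1 : SL2R) 0 0 = 1 := by simp
  have h1 : (1 : SL2R) 1 0 = 0 := by simp
  rw [h0, h1]; simp

lemma cay_coe (t : ℝ) : cay (t : OnePoint ℝ) = Cp I (t : ℂ) := by
  rw [CpI]
  show ((t : ℂ) - Complex.I * ((1 : ℝ) : ℂ)) / ((t : ℂ) + Complex.I * ((1 : ℝ) : ℂ)) = _
  simp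

lemma t_add_I_ne (t : ℝ) : (t : ℂ) + Complex.I ≠ 0 := by
  intro h
  have := congrArg Complex.im h
  simp at this

lemma CpI_ne_one (t : ℝ) : Cp I (t : ℂ) ≠ 1 := by
  rw [CpI]
  intro h
  rw [div_eq_one_iff_eq (t_add_I_ne t)] at h
  have h1 := congrArg Complex.im h
  simp at h1
  norm_num at h1

lemma CpI_inj {s t : ℝ} (h : Cp I (s : ℂ) = Cp I (t : ℂ)) : s = t := by
  rw [CpI, CpI, div_eq_div_iff (t_add_I_ne s) (t_add_I_ne t)] at h
  have h1 : 2 * Complex.I * ((s - t : ℝ) : ℂ) = 0 := by
    push_cast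
    linear_combination h
  rcases mul_eq_zero.1 h1 with h2 | h2
  · exact absurd h2 (mul_ne_zero two_ne_zero Complex.I_ne_zero)
  · have : s - t = 0 := by exact_mod_cast h2
    linarith

lemma cay_inj : Function.Injective cay := by
  intro x y h
  induction x using OnePoint.rec with
  | infty =>
    induction y using OnePoint.rec with
    | infty => rfl
    | coe t =>
      rw [cay_infty, cay_coe] at h
      exact absurd h.symm (CpI_ne_one t)
  | coe s =>
    induction y using OnePoint.rec with
    | infty =>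
      rw [cay_infty, cay_coe] at h
      exact absurd h (CpI_ne_one s)
    | coe t =>
      rw [cay_coe, cay_coe] at h
      rw [CpI_inj h]

lemma CpI_cont_real : Continuous fun t : ℝ => Cp I (t : ℂ) := by
  have : (fun t : ℝ => Cp I (t : ℂ)) = fun t : ℝ => ((t : ℂ) - Complex.I) / ((t : ℂ) + Complex.I) := by
    funext t; exact CpI _
  rw [this]
  exact Continuous.div (by fun_prop) (by fun_prop) t_add_I_ne

lemma cay_cont : Continuous cay := by
  rw [OnePoint.continuous_iff]
  constructor
  · rw [cay_infty, coclosedCompact_eq_cocompact]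
    have h1 : Tendsto (fun t : ℝ => cay (t : OnePoint ℝ) - 1) (cocompact ℝ) (𝓝 0) := by
      have h2 : Tendsto (fun t : ℝ => 2 / |t|) (cocompact ℝ) (𝓝 0) :=
        Tendsto.div_atTop tendsto_const_nhds (tendsto_norm_cocompact_atTop (E := ℝ))
      apply squeeze_zero_norm' _ h2
      have h3 : ∀ᶠ t : ℝ in cocompact ℝ, 1 ≤ |t| :=
        (tendsto_norm_cocompact_atTop (E := ℝ)).eventually (eventually_ge_atTop 1)
      filter_upwards [h3] with t ht
      have hne := t_add_I_ne t
      have e : cay (t : OnePoint ℝ) - 1 = -(2 * Complex.I) / ((t : ℂ) + Complex.I) := by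
        rw [cay_coe, CpI]
        field_simp
        ring
      rw [e, norm_div, norm_neg, norm_mul, Complex.norm_I, mul_one, Complex.norm_ofNat]
      have h4 : |t| ≤ ‖(t : ℂ) + Complex.I‖ := by
        have := Complex.abs_re_le_norm ((t : ℂ) + Complex.I)
        simpa using this
      gcongr
    have h5 := h1.add_const 1
    rw [zero_add] at h5
    refine h5.congr fun t => ?_
    ring
  · have : (fun t : ℝ => cay (t : OnePoint ℝ)) = fun t : ℝ => Cp I (t : ℂ) := by
      funext t; exact cay_coe t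
    rw [this]
    exact CpI_cont_real

/-- The homeomorphism of the line. -/
noncomputable def hHomeo : ℝ ≃ₜ ℝ := (hf_strictMono.orderIsoOfSurjective hf hf_surj).toHomeomorph

lemma hHomeo_apply (y : ℝ) : hHomeo y = hf y := rfl

/-- Its extension to the circle. -/
noncomputable def hOne : OnePoint ℝ ≃ₜ OnePoint ℝ := hHomeo.onePointCongr

lemma hOne_coe (y : ℝ) : hOne (y : OnePoint ℝ) = (hf y : OnePoint ℝ) := rfl

/-- The parametrised transverse circle. -/
noncomputable def gam (y : OnePoint ℝ) : Flag := (((mt (hOne y), mt y) : G) : Flag)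

lemma beta_gam (y : OnePoint ℝ) : beta (gam y) = (cay (hOne y), cay y) := rfl

lemma gam_cont : Continuous gam := by
  rw [beta_emb.isInducing.continuous_iff]
  exact (cay_cont.comp hOne.continuous).prodMk cay_cont

lemma gam_inj : Function.Injective gam := by
  intro x y h
  have h1 := congrArg beta h
  rw [beta_gam, beta_gam] at h1
  exact cay_inj (congrArg Prod.snd h1)

/-- The transverse circle. -/
noncomputable def Lam : Set Flag := Set.range gam

lemma gam_emb : IsClosedEmbedding gam := gam_cont.isClosedEmbedding gam_inj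

lemma exists_trans {s s' : SL2R} (h : bdry s ≠ bdry s') :
    ∃ g : SL2R, bdry s = bdry g ∧ bdry s' = bdry (g * weyl) := by
  set δ := s 0 0 * s' 1 0 - s 1 0 * s' 0 0 with hδ
  have hδ0 : δ ≠ 0 := by
    intro h0
    apply h
    rw [bdry_eq_iff]
    have h1 := congrFun (congrFun (Matrix.SpecialLinearGroup.coe_mul s⁻¹ s') 1) 0
    rw [Matrix.SpecialLinearGroup.coe_inv, adjugate_fin_two, mul_apply, Fin.sum_univ_two] at h1
    refine h1.trans ?_
    simp
    linarith
  refine ⟨⟨!![s 0 0, s' 0 0 / δ; s 1 0, s' 1 0 / δ], ?_⟩, ?_, ?_⟩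
  · rw [det_fin_two_of]
    field_simp
    rw [hδ]; ring
  · rfl
  · set g : SL2R := ⟨!![s 0 0, s' 0 0 / δ; s 1 0, s' 1 0 / δ], _⟩ with hg
    have e00 : (g * weyl) 0 0 = -(s' 0 0 / δ) := by
      have h1 := congrFun (congrFun (Matrix.SpecialLinearGroup.coe_mul g weyl) 0) 0
      rw [mul_apply, Fin.sum_univ_two] at h1
      refine h1.trans ?_
      have a1 : weyl 0 0 = 0 := rfl
      have a2 : weyl 1 0 = -1 := rfl
      have a3 : g 0 1 = s' 0 0 / δ := rfl
      rw [a1, a2, a3]; ring
    have e10 : (g * weyl) 1 0 = -(s' 1 0 / δ) := by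
      have h1 := congrFun (congrFun (Matrix.SpecialLinearGroup.coe_mul g weyl) 1) 0
      rw [mul_apply, Fin.sum_univ_two] at h1
      refine h1.trans ?_
      have a1 : weyl 0 0 = 0 := rfl
      have a2 : weyl 1 0 = -1 := rfl
      have a3 : g 1 1 = s' 1 0 / δ := rfl
      rw [a1, a2, a3]; ring
    unfold bdry
    rw [div_eq_div_iff (col_ne s') (col_ne _), e00, e10]
    push_cast
    ring

lemma Lam_sphere : IsTransverseSphere Lam := by
  constructor
  · refine ⟨1, le_rfl, ⟨?_⟩⟩
    have e1 : OnePoint ℝ ≃ₜ Lam := gam_emb.isEmbedding.toHomeomorph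
    have e2 : OnePoint ℝ ≃ₜ Metric.sphere (0 : EuclideanSpace ℝ (Fin 2)) 1 :=
      onePointEquivSphereOfFinrankEq (by simp)
    exact e1.symm.trans e2
  · rintro _ ⟨x, rfl⟩ _ ⟨y, rfl⟩ hne
    have hxy : x ≠ y := fun h => hne (by rw [h])
    have h1 : bdry (mt (hOne x)) ≠ bdry (mt (hOne y)) := fun h =>
      hxy (hOne.injective (cay_inj h))
    have h2 : bdry (mt x) ≠ bdry (mt y) := fun h => hxy (cay_inj h)
    obtain ⟨g₁, a1, b1⟩ := exists_trans h1
    obtain ⟨g₂, a2, b2⟩ := exists_trans h2
    refine ⟨(g₁, g₂), ?_, ?_⟩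
    · apply beta_inj
      rw [beta_gam, beta_mk]
      exact Prod.ext a1 a2
    · apply beta_inj
      rw [beta_gam, beta_mk]
      exact Prod.ext b1 b2

end Pool.Agent.TS
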