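import Pool.Agent.TS.Main

/-!
The group `SL(2,ℝ)`: Cartan decomposition and the boundary circle.
-/

namespace Pool.Agent.TS

open UpperHalfPlane Filter Topology Matrix
open scoped ComplexConjugate

lemma det_eq (s : SL2R) : s 0 0 * s 1 1 - s 0 1 * s 1 0 = 1 := by
  have := s.det_coe
  rwa [det_fin_two] at this

lemma mem_SO2_iff (k : SL2R) : k ∈ SO2 ↔ k 0 0 = k 1 1 ∧ k 0 1 = - k 1 0 := by
  have hd := det_eq k
  constructor
  · intro h
    have h1 : (k : Matrix (Fin 2) (Fin 2) ℝ)ᵀ * (k : Matrix (Fin 2) (Fin 2) ℝ) = 1 := h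
    have e00 := congrFun (congrFun h1 0) 0
    have e01 := congrFun (congrFun h1 0) 1
    have e11 := congrFun (congrFun h1 1) 1
    simp only [mul_apply, transpose_apply, Fin.sum_univ_two, one_apply_eq] at e00 e11
    simp only [mul_apply, transpose_apply, Fin.sum_univ_two, ne_eq, Fin.isValue, zero_ne_one,
      not_false_eq_true, one_apply_ne] at e01
    constructor
    · have : (k 0 0 - k 1 1) ^ 2 + (k 0 1 + k 1 0) ^ 2 = 0 := by nlinarith
      nlinarith [sq_nonneg (k 0 0 - k 1 1), sq_nonneg (k 0 1 + k 1 0)]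
    · have : (k 0 0 - k 1 1) ^ 2 + (k 0 1 + k 1 0) ^ 2 = 0 := by nlinarith
      nlinarith [sq_nonneg (k 0 0 - k 1 1), sq_nonneg (k 0 1 + k 1 0)]
  · rintro ⟨h1, h2⟩
    show (k : Matrix (Fin 2) (Fin 2) ℝ)ᵀ * (k : Matrix (Fin 2) (Fin 2) ℝ) = 1
    ext i j
    fin_cases i <;> fin_cases j
    · simp only [mul_apply, transpose_apply, Fin.sum_univ_two, Fin.zero_eta, one_apply_eq]
      linear_combination hd + k 0 0 * h1 + k 1 0 * h2
    · simp only [mul_apply, transpose_apply, Fin.sum_univ_two, Fin.zero_eta, Fin.mk_one, ne_eq,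
        zero_ne_one, not_false_eq_true, one_apply_ne]
      linear_combination k 0 0 * h2 - k 1 0 * h1
    · simp only [mul_apply, transpose_apply, Fin.sum_univ_two, Fin.zero_eta, Fin.mk_one, ne_eq,
        one_ne_zero, not_false_eq_true, one_apply_ne]
      linear_combination k 0 0 * h2 - k 1 0 * h1
    · simp only [mul_apply, transpose_apply, Fin.sum_univ_two, Fin.mk_one, one_apply_eq]
      linear_combination hd + k 0 1 * h2 - k 1 1 * h1

lemma coe_smul' (s : SL2R) (z : ℍ) : ((s • z : ℍ) : ℂ) =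
    ((s 0 0 : ℂ) * z + (s 0 1 : ℂ)) / ((s 1 0 : ℂ) * z + (s 1 1 : ℂ)) := by
  have := coe_specialLinearGroup_apply (R := ℝ) s z
  simpa using this

lemma denom_ne (s : SL2R) (z : ℍ) : (s 1 0 : ℂ) * z + (s 1 1 : ℂ) ≠ 0 := by
  intro h
  have h1 := congrArg Complex.im h
  have h2 := congrArg Complex.re h
  simp at h1 h2
  have hz := z.im_pos
  have hd := det_eq s
  rcases h1 with h1 | h1
  · rw [h1] at h2 hd
    simp at h2
    rw [h2] at hd
    norm_num at hd
  · exact absurd h1 hz.ne'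

/-- Boundary value of a matrix: the image of `∞`, in disc coordinates. -/
noncomputable def bdry (s : SL2R) : ℂ :=
  ((s 0 0 : ℂ) - Complex.I * (s 1 0 : ℂ)) / ((s 0 0 : ℂ) + Complex.I * (s 1 0 : ℂ))

lemma col_ne (s : SL2R) : (s 0 0 : ℂ) + Complex.I * (s 1 0 : ℂ) ≠ 0 := by
  intro h
  have h1 := congrArg Complex.im h
  have h2 := congrArg Complex.re h
  simp at h1 h2
  have hd := det_eq s
  rw [h1, h2] at hd
  norm_num at hd

lemma norm_bdry (s : SL2R) : ‖bdry s‖ = 1 := by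
  unfold bdry
  rw [norm_div]
  have h := col_ne s
  have e : (s 0 0 : ℂ) - Complex.I * (s 1 0 : ℂ) =
      conj ((s 0 0 : ℂ) + Complex.I * (s 1 0 : ℂ)) := by
    simp
    ring
  rw [e, Complex.norm_conj]
  exact div_self (norm_ne_zero_iff.2 h)

lemma CpI (z : ℂ) : Cp I z = (z - Complex.I) / (z + Complex.I) := by
  unfold Cp
  rw [coe_I, Complex.conj_I, sub_neg_eq_add]

lemma z_add_I_ne (z : ℍ) : (z : ℂ) + Complex.I ≠ 0 := by
  intro h
  have h1 := congrArg Complex.im h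
  simp at h1
  have := z.im_pos
  linarith

lemma rot_aux (α γ z : ℂ) (hD : γ * z + α ≠ 0) :
    ((α * z + -γ) / (γ * z + α) - Complex.I) / ((α * z + -γ) / (γ * z + α) + Complex.I) =
      (α - Complex.I * γ) / (α + Complex.I * γ) * ((z - Complex.I) / (z + Complex.I)) := by
  have e1 : (α * z + -γ) / (γ * z + α) - Complex.I =
      ((α - Complex.I * γ) * (z - Complex.I)) / (γ * z + α) := by
    rw [eq_div_iff hD, sub_mul, div_mul_cancel₀ _ hD]
    linear_combination (-γ) * Complex.I_sq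
  have e2 : (α * z + -γ) / (γ * z + α) + Complex.I =
      ((α + Complex.I * γ) * (z + Complex.I)) / (γ * z + α) := by
    rw [eq_div_iff hD, add_mul, div_mul_cancel₀ _ hD]
    linear_combination (-γ) * Complex.I_sq
  rw [e1, e2, div_div_div_cancel_right₀ hD, mul_div_mul_comm]

/-- Rotations act by multiplication in disc coordinates. -/
lemma Cp_rot {k : SL2R} (hk : k ∈ SO2) (z : ℍ) : Cp I ((k • z : ℍ) : ℂ) = bdry k * Cp I z := by
  obtain ⟨h1, h2⟩ := (mem_SO2_iff k).1 hk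
  have hd := denom_ne k z
  rw [CpI, CpI]
  unfold bdry
  rw [coe_smul', ← h1, h2]
  rw [← h1] at hd
  push_cast
  exact rot_aux _ _ _ hd

lemma smul_I_of_SO2 {k : SL2R} (hk : k ∈ SO2) : k • I = I := by
  have h := Cp_rot hk I
  rw [Cp_self, mul_zero] at h
  have h2 := norm_Cp I (k • I)
  rw [h, norm_zero] at h2
  by_contra hne
  have hpos : 0 < dist (k • I) I := dist_pos.2 hne
  have : 0 < Real.tanh (dist (k • I) I / 2) := by
    rw [Real.tanh_eq_sinh_div_cosh]
    exact div_pos (Real.sinh_pos_iff.2 (by positivity)) (Real.cosh_pos _)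
  linarith

lemma Cp_inj {z w : ℍ} (h : Cp I z = Cp I w) : z = w := by
  have h1 := Cp_sub I z w
  rw [h, sub_self, norm_zero] at h1
  by_contra hne
  have hpos : 0 < dist z w := dist_pos.2 hne
  have h2 : 0 < Real.sinh (dist z w / 2) := Real.sinh_pos_iff.2 (by positivity)
  have h3 := Real.cosh_pos (dist z I / 2)
  have h4 := Real.cosh_pos (dist w I / 2)
  have : 0 < Real.sinh (dist z w / 2) / (Real.cosh (dist z I / 2) * Real.cosh (dist w I / 2)) := by
    positivity
  linarith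

lemma Cp_dg {t : ℝ} : Cp I ((dg t • I : ℍ) : ℂ) = (Real.tanh (t / 2) : ℂ) := by
  rw [CpI, coe_smul', coe_I]
  have e00 : dg t 0 0 = Real.exp (t / 2) := rfl
  have e01 : dg t 0 1 = 0 := rfl
  have e10 : dg t 1 0 = 0 := rfl
  have e11 : dg t 1 1 = Real.exp (-(t / 2)) := rfl
  rw [e00, e01, e10, e11, Real.tanh_eq_sinh_div_cosh, Real.sinh_eq, Real.cosh_eq]
  have h2 : (Real.exp (-(t / 2)) : ℂ) ≠ 0 := by exact_mod_cast (Real.exp_pos _).ne'
  set a : ℝ := Real.exp (t / 2) with ha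
  set b : ℝ := Real.exp (-(t / 2)) with hb
  have e1 : ((a : ℂ) * Complex.I + ((0 : ℝ) : ℂ)) / (((0 : ℝ) : ℂ) * Complex.I + (b : ℂ)) -
      Complex.I = Complex.I * ((a - b : ℝ) : ℂ) / b := by
    push_cast
    rw [zero_mul, zero_add, add_zero]
    field_simp
  have e2 : ((a : ℂ) * Complex.I + ((0 : ℝ) : ℂ)) / (((0 : ℝ) : ℂ) * Complex.I + (b : ℂ)) +
      Complex.I = Complex.I * ((a + b : ℝ) : ℂ) / b := by
    push_cast
    rw [zero_mul, zero_add, add_zero]
    field_simp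
  rw [e1, e2, div_div_div_cancel_right₀ h2, mul_div_mul_left _ _ Complex.I_ne_zero]
  have e3 : (a - b) / 2 / ((a + b) / 2) = (a - b) / (a + b) := by
    rw [div_div_div_cancel_right₀ two_ne_zero]
  rw [e3]
  push_cast
  rfl

lemma dist_dg {t : ℝ} (ht : 0 ≤ t) : dist (dg t • I : ℍ) I = t := by
  have h := norm_Cp I (dg t • I)
  rw [Cp_dg, Complex.norm_real, Real.norm_eq_abs] at h
  have h0 : 0 ≤ Real.tanh (t / 2) := by
    rw [Real.tanh_eq_sinh_div_cosh]
    exact div_nonneg (Real.sinh_nonneg_iff.2 (by positivity)) (Real.cosh_pos _).le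
  rw [abs_of_nonneg h0] at h
  have := Real.tanh_injective h
  linarith

/-- Rotation matrix with first column `(a, c)`. -/
def rotm (a c : ℝ) (h : a ^ 2 + c ^ 2 = 1) : SL2R :=
  ⟨!![a, -c; c, a], by rw [det_fin_two_of]; linarith⟩

lemma rotm_mem {a c : ℝ} (h : a ^ 2 + c ^ 2 = 1) : rotm a c h ∈ SO2 := by
  rw [mem_SO2_iff]
  exact ⟨rfl, rfl⟩

lemma exists_rot {u : ℂ} (hu : ‖u‖ = 1) : ∃ k ∈ SO2, bdry k = u := by
  obtain ⟨v, hv⟩ := IsAlgClosed.exists_pow_nat_eq u (n := 2) (by norm_num)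
  have hv1 : ‖v‖ = 1 := by
    have : ‖v‖ ^ 2 = 1 := by rw [← norm_pow, hv, hu]
    have h0 := norm_nonneg v
    nlinarith
  have hsq : v.re ^ 2 + (-v.im) ^ 2 = 1 := by
    have := Complex.sq_norm v
    rw [hv1, Complex.normSq_apply] at this
    nlinarith
  refine ⟨rotm v.re (-v.im) hsq, rotm_mem hsq, ?_⟩
  unfold bdry
  have e0 : (rotm v.re (-v.im) hsq) 0 0 = v.re := rfl
  have e1 : (rotm v.re (-v.im) hsq) 1 0 = -v.im := rfl
  rw [e0, e1]
  have a1 : (v.re : ℂ) - Complex.I * ((-v.im : ℝ) : ℂ) = v := by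
    apply Complex.ext <;> simp
  have a2 : (v.re : ℂ) + Complex.I * ((-v.im : ℝ) : ℂ) = conj v := by
    apply Complex.ext <;> simp
  rw [a1, a2]
  have hne : conj v ≠ 0 := by
    intro h
    rw [map_eq_zero] at h
    rw [h, norm_zero] at hv1
    norm_num at hv1
  rw [div_eq_iff hne]
  have hvv : v * conj v = 1 := by
    rw [Complex.mul_conj, Complex.normSq_eq_norm_sq, hv1]; simp
  calc v = v * (v * conj v) := by rw [hvv, mul_one]
    _ = u * conj v := by rw [← hv]; ring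

lemma mem_SO2_of_fix {s : SL2R} (h : s • I = I) : s ∈ SO2 := by
  have h1 := coe_smul' s I
  rw [h, coe_I] at h1
  have hd := denom_ne s I
  rw [coe_I] at hd
  rw [eq_div_iff hd] at h1
  have h2 := congrArg Complex.im h1
  have h3 := congrArg Complex.re h1
  simp at h2 h3
  rw [mem_SO2_iff]
  constructor
  · linarith
  · linarith

lemma SO2_inv {k : SL2R} (hk : k ∈ SO2) : k⁻¹ ∈ SO2 := by
  apply mem_SO2_of_fix
  rw [inv_smul_eq_iff, smul_I_of_SO2 hk]

/-- Existence of the Cartan decomposition in `SL(2,ℝ)`. -/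
lemma exists_cartan (s : SL2R) : ∃ k ∈ SO2, ∃ k' ∈ SO2, s = k * dg (dist (s • I) I) * k' := by
  set t := dist (s • I) I with ht
  have ht0 : 0 ≤ t := dist_nonneg
  have hn := norm_Cp I (s • I)
  rw [← ht] at hn
  obtain ⟨u, hu, hCu⟩ : ∃ u : ℂ, ‖u‖ = 1 ∧ Cp I (s • I : ℍ) = u * (Real.tanh (t / 2) : ℂ) := by
    by_cases h0 : Cp I (s • I : ℍ) = 0
    · refine ⟨1, norm_one, ?_⟩
      rw [h0, norm_zero] at hn
      rw [h0, ← hn]; simp
    · have hne : (Real.tanh (t / 2) : ℂ) ≠ 0 := by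
        rw [← hn]
        exact_mod_cast norm_ne_zero_iff.2 h0
      refine ⟨Cp I (s • I : ℍ) / (Real.tanh (t / 2) : ℂ), ?_, ?_⟩
      · rw [norm_div, Complex.norm_real, Real.norm_eq_abs, ← hn, abs_of_nonneg (norm_nonneg _)]
        exact div_self (norm_ne_zero_iff.2 h0)
      · rw [div_mul_cancel₀ _ hne]
  obtain ⟨k, hk, hku⟩ := exists_rot hu
  have h1 : k • (dg t • I) = s • I := by
    apply Cp_inj
    rw [Cp_rot hk, Cp_dg, hku, hCu]
  refine ⟨k, hk, (k * dg t)⁻¹ * s, ?_, by group⟩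
  apply mem_SO2_of_fix
  rw [mul_smul, inv_smul_eq_iff, mul_smul, h1]

/-- Consequences of a Cartan decomposition. -/
lemma cartan_dist {s k k' : SL2R} {t : ℝ} (hk : k ∈ SO2) (hk' : k' ∈ SO2) (ht : 0 ≤ t)
    (h : s = k * dg t * k') : dist (s • I) I = t := by
  rw [h, mul_smul, smul_I_of_SO2 hk', mul_smul]
  nth_rewrite 2 [← smul_I_of_SO2 hk]
  rw [dist_smul, dist_dg ht]

lemma cartan_Cp {s k k' : SL2R} {t : ℝ} (hk : k ∈ SO2) (hk' : k' ∈ SO2)
    (h : s = k * dg t * k') : Cp I (s • I : ℍ) = bdry k * (Real.tanh (t / 2) : ℂ) := by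
  rw [h, mul_smul, smul_I_of_SO2 hk', mul_smul, Cp_rot hk, Cp_dg]

/-- The boundary value determines the coset. -/
lemma bdry_eq_iff (s s' : SL2R) : bdry s = bdry s' ↔ (s⁻¹ * s') 1 0 = 0 := by
  have e : (s⁻¹ * s') 1 0 = s 0 0 * s' 1 0 - s 1 0 * s' 0 0 := by
    have h := congrFun (congrFun (Matrix.SpecialLinearGroup.coe_mul s⁻¹ s') 1) 0
    rw [Matrix.SpecialLinearGroup.coe_inv, adjugate_fin_two, mul_apply, Fin.sum_univ_two] at h
    refine h.trans ?_
    simp
    ring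
  rw [e]
  unfold bdry
  rw [div_eq_div_iff (col_ne s) (col_ne s')]
  constructor
  · intro h
    have h1 : 2 * Complex.I * ((s 0 0 * s' 1 0 - s 1 0 * s' 0 0 : ℝ) : ℂ) = 0 := by
      push_cast
      linear_combination h
    rcases mul_eq_zero.1 h1 with h2 | h2
    · exact absurd h2 (mul_ne_zero two_ne_zero Complex.I_ne_zero)
    · exact_mod_cast h2
  · intro h
    have h1 : ((s 0 0 * s' 1 0 - s 1 0 * s' 0 0 : ℝ) : ℂ) = 0 := by rw [h]; simp
    push_cast at h1
    linear_combination 2 * Complex.I * h1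

lemma bdry_cont : Continuous bdry := by
  unfold bdry
  have h : Continuous fun s : SL2R => (s : Matrix (Fin 2) (Fin 2) ℝ) := continuous_subtype_val
  have h00 : Continuous fun s : SL2R => ((s 0 0 : ℝ) : ℂ) :=
    Complex.continuous_ofReal.comp ((continuous_apply_apply 0 0).comp h)
  have h10 : Continuous fun s : SL2R => ((s 1 0 : ℝ) : ℂ) :=
    Complex.continuous_ofReal.comp ((continuous_apply_apply 1 0).comp h)
  apply Continuous.div
  · exact h00.sub (continuous_const.mul h10)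
  · exact h00.add (continuous_const.mul h10)
  · exact col_ne

end Pool.Agent.TS
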