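import Mathlib

/-!
Disc coordinates on the hyperbolic plane and contraction estimates.
-/

namespace Pool.Agent.TS

open UpperHalfPlane Filter Topology
open scoped ComplexConjugate

/-- Disc coordinate centred at `p`. -/
noncomputable def Cp (p : ℍ) (z : ℂ) : ℂ := (z - p) / (z - conj (p : ℂ))

lemma sub_conj_ne (p : ℍ) {z : ℂ} (hz : 0 ≤ z.im) : z - conj (p : ℂ) ≠ 0 := by
  intro h
  have h1 := congrArg Complex.im h
  simp only [Complex.sub_im, Complex.conj_im, Complex.zero_im] at h1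
  have h2 : 0 < (p : ℂ).im := p.im_pos
  linarith

lemma Cp_sub (p z w : ℍ) : ‖Cp p z - Cp p w‖ =
    Real.sinh (dist z w / 2) / (Real.cosh (dist z p / 2) * Real.cosh (dist w p / 2)) := by
  have hz : (z : ℂ) - conj (p : ℂ) ≠ 0 := sub_conj_ne p z.im_pos.le
  have hw : (w : ℂ) - conj (p : ℂ) ≠ 0 := sub_conj_ne p w.im_pos.le
  have e : Cp p z - Cp p w = ((z : ℂ) - w) * ((p : ℂ) - conj (p : ℂ)) /
      (((z : ℂ) - conj (p : ℂ)) * ((w : ℂ) - conj (p : ℂ))) := by
    unfold Cp
    field_simp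
    ring
  have hp : ‖(p : ℂ) - conj (p : ℂ)‖ = 2 * p.im := by
    have : (p : ℂ) - conj (p : ℂ) = ((2 * p.im : ℝ) : ℂ) * Complex.I := by
      apply Complex.ext <;> simp
      ring
    rw [this, norm_mul, Complex.norm_I, mul_one, Complex.norm_real, Real.norm_eq_abs,
      abs_of_pos (by have := p.im_pos; linarith)]
  rw [e, norm_div, norm_mul, norm_mul, hp, sinh_half_dist, cosh_half_dist, cosh_half_dist,
    Complex.dist_eq, Complex.dist_eq, Complex.dist_eq]
  have hz' : 0 < ‖(z : ℂ) - conj (p : ℂ)‖ := norm_pos_iff.2 hz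
  have hw' : 0 < ‖(w : ℂ) - conj (p : ℂ)‖ := norm_pos_iff.2 hw
  have zi := z.im_pos
  have wi := w.im_pos
  have pi := p.im_pos
  have s1 : √(z.im * p.im) * √(w.im * p.im) = √(z.im * w.im) * p.im := by
    rw [← Real.sqrt_mul (by positivity), show z.im * p.im * (w.im * p.im) =
      (z.im * w.im) * p.im ^ 2 by ring, Real.sqrt_mul (by positivity), Real.sqrt_sq pi.le]
  have hs : 0 < √(z.im * w.im) := by positivity
  have hs1 : 0 < √(z.im * p.im) := by positivity
  have hs2 : 0 < √(w.im * p.im) := by positivity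
  rw [div_mul_div_comm, div_div_div_eq, div_eq_div_iff (by positivity) (by positivity)]
  have : 2 * √(z.im * p.im) * (2 * √(w.im * p.im)) = 4 * (√(z.im * w.im) * p.im) := by
    rw [← s1]; ring
  rw [this]
  ring

lemma Cp_self (p : ℍ) : Cp p p = 0 := by
  unfold Cp
  simp

lemma norm_Cp (p z : ℍ) : ‖Cp p z‖ = Real.tanh (dist z p / 2) := by
  have h := Cp_sub p z p
  rw [Cp_self, sub_zero, dist_self] at h
  rw [h, Real.tanh_eq_sinh_div_cosh]
  simp

lemma norm_Cp_lt (p z : ℍ) : ‖Cp p z‖ < 1 := by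
  rw [norm_Cp]
  exact Real.tanh_lt_one _

lemma cosh_ge_half_exp (x : ℝ) : Real.exp x / 2 ≤ Real.cosh x := by
  rw [Real.cosh_eq]
  have := Real.exp_pos (-x)
  linarith

/-- Contraction of the disc coordinate far away from the centre. -/
lemma Cp_step {p z w : ℍ} {c r : ℝ} (hzw : dist z w ≤ c) (hz : r ≤ dist z p)
    (hw : r ≤ dist w p) : ‖Cp p z - Cp p w‖ ≤ 4 * Real.sinh (c / 2) * Real.exp (-r) := by
  rw [Cp_sub]
  have h1 : Real.sinh (dist z w / 2) ≤ Real.sinh (c / 2) :=
    Real.sinh_le_sinh.2 (by linarith)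
  have h0 : 0 ≤ Real.sinh (dist z w / 2) := Real.sinh_nonneg_iff.2 (by positivity)
  have h2 : Real.exp (r / 2) / 2 ≤ Real.cosh (dist z p / 2) :=
    le_trans (by gcongr) (cosh_ge_half_exp _)
  have h3 : Real.exp (r / 2) / 2 ≤ Real.cosh (dist w p / 2) :=
    le_trans (by gcongr) (cosh_ge_half_exp _)
  have h4 : Real.exp r / 4 ≤ Real.cosh (dist z p / 2) * Real.cosh (dist w p / 2) := by
    have e : Real.exp r / 4 = (Real.exp (r / 2) / 2) * (Real.exp (r / 2) / 2) := by
      rw [div_mul_div_comm, ← Real.exp_add]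
      norm_num
    rw [e]
    exact mul_le_mul h2 h3 (by positivity) (by positivity)
  have he := Real.exp_pos r
  calc Real.sinh (dist z w / 2) / (Real.cosh (dist z p / 2) * Real.cosh (dist w p / 2))
      ≤ Real.sinh (c / 2) / (Real.exp r / 4) :=
        div_le_div₀ (h0.trans h1) h1 (by positivity) h4
    _ = 4 * Real.sinh (c / 2) * Real.exp (-r) := by
        rw [Real.exp_neg]; field_simp

/-- Geometric telescoping. -/
lemma geom_tel {u : ℕ → ℂ} {C q : ℝ} (hC : 0 ≤ C) (hq0 : 0 ≤ q) (hq1 : q < 1) (m n : ℕ)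
    (h : ∀ k, m ≤ k → k < m + n → ‖u k - u (k + 1)‖ ≤ C * q ^ k) :
    ‖u m - u (m + n)‖ ≤ C * q ^ m / (1 - q) := by
  have hq : 0 < 1 - q := by linarith
  have key : ∀ j, j ≤ n → ‖u m - u (m + j)‖ ≤ C * q ^ m * (1 - q ^ j) / (1 - q) := by
    intro j
    induction j with
    | zero => intro _; simp
    | succ j ih =>
      intro hj
      have h1 := ih (by omega)
      have h2 := h (m + j) (by omega) (by omega)
      have e : u m - u (m + (j + 1)) = (u m - u (m + j)) + (u (m + j) - u (m + j + 1)) := by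
        rw [← add_assoc]; ring
      rw [e]
      refine (norm_add_le _ _).trans ((add_le_add h1 h2).trans (le_of_eq ?_))
      field_simp
      ring
  refine (key n le_rfl).trans ?_
  apply div_le_div_of_nonneg_right _ hq.le
  have : 0 ≤ q ^ n := pow_nonneg hq0 n
  have h2 : 0 ≤ C * q ^ m := by positivity
  nlinarith

end Pool.Agent.TS
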