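import Pool.Agent.TS.Surj

/-!
Hölder estimate for the correspondence of the two boundary circles.
-/

namespace Pool.Agent.TS

open UpperHalfPlane Filter Topology
open scoped ComplexConjugate

/-- The point `t + i e^{-k}`. -/
noncomputable def vp (t : ℝ) (k : ℕ) : ℍ := ⟨⟨t, Real.exp (-(k : ℝ))⟩, Real.exp_pos _⟩

lemma vp_re (t : ℝ) (k : ℕ) : (vp t k).re = t := rfl

lemma vp_im (t : ℝ) (k : ℕ) : (vp t k).im = Real.exp (-(k : ℝ)) := rfl

lemma vp_dist_I (t : ℝ) (k : ℕ) : (k : ℝ) ≤ dist (vp t k) I := by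
  refine le_trans ?_ (dist_log_im_le (vp t k) I)
  rw [vp_im, I_im, Real.log_one, Real.log_exp, Real.dist_eq, sub_zero, abs_neg]
  exact le_abs_self _

lemma vp_step (t : ℝ) (k : ℕ) : dist (vp t k) (vp t (k + 1)) ≤ 1 := by
  rw [dist_of_re_eq (by rw [vp_re, vp_re]), vp_im, vp_im, Real.log_exp, Real.log_exp,
    Real.dist_eq]
  push_cast
  rw [show -(k : ℝ) - -(k + 1) = 1 by ring]
  norm_num

lemma vp_close {s t : ℝ} {n : ℕ} (h : |s - t| ≤ Real.exp (-(n : ℝ))) :
    dist (vp s n) (vp t n) ≤ 1 := by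
  refine (dist_le_dist_coe_div_sqrt _ _).trans ?_
  rw [vp_im, vp_im, Real.sqrt_mul_self (Real.exp_pos _).le, div_le_one (Real.exp_pos _)]
  have e : dist ((vp s n : ℍ) : ℂ) (vp t n) = |s - t| := by
    rw [Complex.dist_eq]
    have : ((vp s n : ℍ) : ℂ) - (vp t n : ℂ) = ((s - t : ℝ) : ℂ) := by
      apply Complex.ext
      · show s - t = _
        simp
      · show Real.exp (-(n : ℝ)) - Real.exp (-(n : ℝ)) = _
        simp
    rw [this, Complex.norm_real, Real.norm_eq_abs]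
  rw [e]
  exact h

lemma vp_tendsto (t : ℝ) : Tendsto (fun k => ((vp t k : ℍ) : ℂ)) atTop (𝓝 (t : ℂ)) := by
  have h1 : Tendsto (fun k : ℕ => Real.exp (-(k : ℝ))) atTop (𝓝 0) :=
    Real.tendsto_exp_neg_atTop_nhds_zero.comp tendsto_natCast_atTop_atTop
  have h2 : Tendsto (fun k : ℕ => (t : ℂ) + ((Real.exp (-(k : ℝ)) : ℝ) : ℂ) * Complex.I) atTop
      (𝓝 ((t : ℂ) + ((0 : ℝ) : ℂ) * Complex.I)) := by
    apply Tendsto.const_add
    apply Tendsto.mul_const
    exact (Complex.continuous_ofReal.tendsto 0).comp h1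
  have e : (t : ℂ) + ((0 : ℝ) : ℂ) * Complex.I = t := by simp
  rw [e] at h2
  refine h2.congr fun k => ?_
  apply Complex.ext
  · show _ = t
    simp only [Complex.add_re, Complex.mul_re, Complex.ofReal_re, Complex.ofReal_im,
      Complex.I_re, Complex.I_im]
    ring
  · show _ = Real.exp (-(k : ℝ))
    simp only [Complex.add_im, Complex.mul_im, Complex.ofReal_re, Complex.ofReal_im,
      Complex.I_re, Complex.I_im]
    ring

theorem main_est {Z : Type*} [MetricSpace Z] {f₁ f₂ : Z → ℍ} {L A D₀ : ℝ} (hL : 1 ≤ L)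
    (hA : 0 ≤ A) (hU₁ : ∀ x y, dist (f₁ x) (f₁ y) ≤ L * dist x y + A)
    (hlow₁ : ∀ x y, dist x y / L - A ≤ dist (f₁ x) (f₁ y))
    (hU₂ : ∀ x y, dist (f₂ x) (f₂ y) ≤ L * dist x y + A)
    (hlow₂ : ∀ x y, dist x y / L - A ≤ dist (f₂ x) (f₂ y))
    (hD : ∀ p : ℍ, ∃ x, dist (f₁ x) p ≤ D₀) :
    ∃ (z : ℝ → ℕ → Z) (η : ℝ → ℂ) (M q : ℝ), 0 < M ∧ 0 < q ∧ q < 1 ∧
      (∀ t, Tendsto (fun k => ((f₁ (z t k) : ℍ) : ℂ)) atTop (𝓝 (t : ℂ))) ∧
      (∀ t, Tendsto (fun k => dist (f₁ (z t k)) I) atTop atTop) ∧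
      (∀ t, Tendsto (fun k => dist (f₂ (z t k)) I) atTop atTop) ∧
      (∀ t, Tendsto (fun k => Cp I (f₂ (z t k))) atTop (𝓝 (η t))) ∧
      (∀ (s t : ℝ) (n : ℕ), |s - t| ≤ Real.exp (-(n : ℝ)) → ‖η s - η t‖ ≤ M * q ^ n) := by
  have hD0 : 0 ≤ D₀ := by
    obtain ⟨x, hx⟩ := hD I
    exact dist_nonneg.trans hx
  have hex : ∀ (t : ℝ) (k : ℕ), ∃ x, dist (f₁ x) (vp t k) ≤ D₀ := fun t k => hD _
  choose z hz using hex
  obtain ⟨z₀, _⟩ := hD I
  set b := dist (f₁ z₀) I with hb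
  set b₂ := dist (f₂ z₀) I with hb₂
  set C₃ := (D₀ + b + A) / L / L + A + b₂ with hC₃
  have hL0 : 0 < L := by linarith
  have h1dist : ∀ (t : ℝ) (k : ℕ), (k : ℝ) - D₀ ≤ dist (f₁ (z t k)) I := by
    intro t k
    have h1 := vp_dist_I t k
    have h2 := hz t k
    have h3 := dist_triangle_left (vp t k) I (f₁ (z t k))
    linarith
  have h2dist : ∀ (t : ℝ) (k : ℕ), (k : ℝ) / L / L - C₃ ≤ dist (f₂ (z t k)) I := by
    intro t k
    have h1 := h1dist t k
    have h2 : dist (f₁ (z t k)) I ≤ dist (f₁ (z t k)) (f₁ z₀) + b := dist_triangle _ _ _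
    have h3 : dist (f₂ (z t k)) (f₂ z₀) ≤ dist (f₂ (z t k)) I + b₂ :=
      dist_triangle_right _ _ _
    have h4 := hU₁ (z t k) z₀
    have h5 := hlow₂ (z t k) z₀
    have h6 : ((k : ℝ) - (D₀ + b + A)) / L ≤ dist (z t k) z₀ := by
      rw [div_le_iff₀ hL0]
      linarith
    have h7 : ((k : ℝ) - (D₀ + b + A)) / L / L ≤ dist (z t k) z₀ / L := by gcongr
    have h8 : ((k : ℝ) - (D₀ + b + A)) / L / L = (k : ℝ) / L / L - (D₀ + b + A) / L / L := by ring
    rw [h8] at h7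
    linarith
  set s := L * (L * (1 + 2 * D₀ + A)) + A with hs
  have hs0 : 0 < s := by positivity
  have hstep2 : ∀ x y : Z, ∀ p q : ℍ, dist (f₁ x) p ≤ D₀ → dist (f₁ y) q ≤ D₀ → dist p q ≤ 1 →
      dist (f₂ x) (f₂ y) ≤ s := by
    intro x y p q hx hy hpq
    have h1 : dist (f₁ x) (f₁ y) ≤ 1 + 2 * D₀ := by
      have := dist_triangle4 (f₁ x) p q (f₁ y)
      rw [dist_comm q] at this
      linarith
    have h2 := hlow₁ x y
    have h3 : dist x y ≤ L * (1 + 2 * D₀ + A) := by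
      rw [mul_comm, ← div_le_iff₀ hL0]
      linarith
    have h4 := hU₂ x y
    have h5 : L * dist x y ≤ L * (L * (1 + 2 * D₀ + A)) := mul_le_mul_of_nonneg_left h3 hL0.le
    linarith
  set q := Real.exp (-(1 / L / L)) with hq
  have hq0 : 0 < q := Real.exp_pos _
  have hq1 : q < 1 := by
    rw [hq]
    exact Real.exp_lt_one_iff.2 (neg_lt_zero.2 (by positivity))
  have h1q : 0 < 1 - q := by linarith
  have hqk : ∀ k : ℕ, Real.exp (-((k : ℝ) / L / L - C₃)) = Real.exp C₃ * q ^ k := by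
    intro k
    rw [hq, ← Real.exp_nat_mul, ← Real.exp_add]
    congr 1
    ring
  have hsinh : 0 < Real.sinh (s / 2) := Real.sinh_pos_iff.2 (by positivity)
  set C := 4 * Real.sinh (s / 2) * Real.exp C₃ with hC
  have hC0 : 0 < C := by positivity
  have hgen : ∀ x y : Z, ∀ k : ℕ, dist (f₂ x) (f₂ y) ≤ s → (k : ℝ) / L / L - C₃ ≤ dist (f₂ x) I →
      (k : ℝ) / L / L - C₃ ≤ dist (f₂ y) I → ‖Cp I (f₂ x) - Cp I (f₂ y)‖ ≤ C * q ^ k := by
    intro x y k h1 h2 h3
    refine (Cp_step h1 h2 h3).trans (le_of_eq ?_)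
    rw [hqk, hC]; ring
  set u : ℝ → ℕ → ℂ := fun t k => Cp I (f₂ (z t k)) with hu
  have hu1 : ∀ t k, dist (u t k) (u t (k + 1)) ≤ C * q ^ k := by
    intro t k
    rw [dist_eq_norm]
    apply hgen _ _ _ (hstep2 _ _ _ _ (hz t k) (hz t (k + 1)) (vp_step t k)) (h2dist t k)
    refine le_trans ?_ (h2dist t (k + 1))
    have : (k : ℝ) / L / L ≤ ((k + 1 : ℕ) : ℝ) / L / L := by
      gcongr
      linarith
    linarith
  have hcau : ∀ t, CauchySeq (u t) := fun t => cauchySeq_of_le_geometric q C hq1 (hu1 t)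
  choose η hη using fun t => cauchySeq_tendsto_of_complete (hcau t)
  have hηd : ∀ t n, ‖u t n - η t‖ ≤ C * q ^ n / (1 - q) := by
    intro t n
    rw [← dist_eq_norm]
    exact dist_le_of_le_geometric_of_tendsto q C hq1 (hu1 t) (hη t) n
  refine ⟨z, η, 2 * C / (1 - q) + C, q, by positivity, hq0, hq1, ?_, ?_, ?_, hη, ?_⟩
  · intro t
    have h1 : Tendsto (fun k : ℕ => Real.exp (-(k : ℝ)) * (Real.exp D₀ - 1)) atTop (𝓝 0) := by
      have := (Real.tendsto_exp_neg_atTop_nhds_zero.comp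
        (tendsto_natCast_atTop_atTop (R := ℝ))).mul_const (Real.exp D₀ - 1)
      rwa [zero_mul] at this
    have h2 : Tendsto (fun k => ((f₁ (z t k) : ℍ) : ℂ) - (vp t k : ℂ)) atTop (𝓝 0) := by
      apply squeeze_zero_norm _ h1
      intro k
      rw [← Complex.dist_eq]
      refine (dist_coe_le _ _).trans ?_
      rw [vp_im]
      have := hz t k
      gcongr
    have h3 := h2.add (vp_tendsto t)
    rw [zero_add] at h3
    refine h3.congr fun k => ?_
    ring
  · intro t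
    apply tendsto_atTop_mono (h1dist t)
    exact tendsto_atTop_add_const_right _ _ tendsto_natCast_atTop_atTop
  · intro t
    apply tendsto_atTop_mono (h2dist t)
    apply tendsto_atTop_add_const_right
    exact (tendsto_natCast_atTop_atTop.atTop_div_const hL0).atTop_div_const hL0
  · intro a t n han
    have h1 := hηd a n
    have h2 := hηd t n
    have h3 := hgen (z a n) (z t n) n
      (hstep2 _ _ _ _ (hz a n) (hz t n) (vp_close han)) (h2dist a n) (h2dist t n)
    have e : η a - η t = -(u a n - η a) + (u a n - u t n) + (u t n - η t) := by ring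
    rw [e]
    refine (norm_add_le _ _).trans ?_
    have h4 := norm_add_le (-(u a n - η a)) (u a n - u t n)
    rw [norm_neg] at h4
    have h5 : (2 * C / (1 - q) + C) * q ^ n = C * q ^ n / (1 - q) + C * q ^ n +
        C * q ^ n / (1 - q) := by ring
    rw [h5]
    linarith

/-- The profile of the second coordinate. -/
noncomputable def hf (y : ℝ) : ℝ := min y 0 + y * expNegInvGlue y

lemma hf_nonpos {y : ℝ} (hy : y ≤ 0) : hf y = y := by
  unfold hf
  rw [min_eq_left hy, expNegInvGlue.zero_of_nonpos hy]; ring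

lemma hf_pos {y : ℝ} (hy : 0 < y) : hf y = y * Real.exp (-y⁻¹) := by
  unfold hf
  rw [min_eq_right hy.le]
  unfold expNegInvGlue
  rw [if_neg (not_le.2 hy)]; ring

lemma hf_cont : Continuous hf := by
  have : Continuous expNegInvGlue := (expNegInvGlue.contDiff (n := 0)).continuous
  unfold hf
  fun_prop

lemma hf_strictMono : StrictMono hf := by
  intro x y hxy
  rcases le_or_gt y 0 with hy | hy
  · rw [hf_nonpos hy, hf_nonpos (hxy.le.trans hy)]; exact hxy
  · rw [hf_pos hy]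
    rcases le_or_gt x 0 with hx | hx
    · rw [hf_nonpos hx]
      exact lt_of_le_of_lt hx (by positivity)
    · rw [hf_pos hx]
      have h1 : y⁻¹ < x⁻¹ := (inv_lt_inv₀ hy hx).2 hxy
      have h2 : Real.exp (-x⁻¹) < Real.exp (-y⁻¹) := Real.exp_lt_exp.2 (by linarith)
      exact mul_lt_mul'' hxy h2 hx.le (Real.exp_pos _).le

lemma hf_surj : Function.Surjective hf := by
  apply hf_cont.surjective
  · have h1 : ∀ᶠ y : ℝ in atTop, y * Real.exp (-1) ≤ hf y := by
      filter_upwards [eventually_ge_atTop 1] with y hy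
      rw [hf_pos (by linarith)]
      have : y⁻¹ ≤ 1 := inv_le_one_of_one_le₀ hy
      have h2 : Real.exp (-1) ≤ Real.exp (-y⁻¹) := Real.exp_le_exp.2 (by linarith)
      exact mul_le_mul_of_nonneg_left h2 (by linarith)
    exact tendsto_atTop_mono' _ h1 (tendsto_id.atTop_mul_const (Real.exp_pos _))
  · have h1 : ∀ᶠ y : ℝ in atBot, hf y ≤ y := by
      filter_upwards [eventually_le_atBot 0] with y hy
      rw [hf_nonpos hy]
    exact tendsto_atBot_mono' _ h1 tendsto_id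

/-- Final contradiction. -/
theorem contra {η : ℝ → ℂ} {M q : ℝ} (hM : 0 < M) (hq0 : 0 < q) (hq1 : q < 1)
    (hη : ∀ (s t : ℝ) (n : ℕ), |s - t| ≤ Real.exp (-(n : ℝ)) → ‖η s - η t‖ ≤ M * q ^ n)
    (hφ : ∀ y : ℝ, η (hf y) = Cp I (y : ℂ)) : False := by
  have key : ∀ n : ℕ, 1 ≤ n → 1 / (n : ℝ) ≤ M * q ^ n := by
    intro n hn
    have hn' : (1 : ℝ) ≤ n := by exact_mod_cast hn
    have hn0 : (0 : ℝ) < n := by linarith
    have h1 := hη (hf (1 / n)) (hf 0) n (by
      rw [hf_pos (by positivity), hf_nonpos le_rfl, sub_zero, one_div, inv_inv,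
        abs_of_pos (by positivity)]
      have : (n : ℝ)⁻¹ ≤ 1 := inv_le_one_of_one_le₀ hn'
      calc (n : ℝ)⁻¹ * Real.exp (-n) ≤ 1 * Real.exp (-n) := by gcongr
        _ = Real.exp (-n) := one_mul _)
    rw [hφ, hφ] at h1
    refine le_trans ?_ h1
    set y : ℝ := 1 / n with hy
    have hy0 : 0 < y := by positivity
    have hy1 : y ≤ 1 := by rw [hy, div_le_one hn0]; exact hn'
    have hI : conj ((I : ℍ) : ℂ) = -Complex.I := by
      rw [coe_I, Complex.conj_I]
    have hne : (y : ℂ) + Complex.I ≠ 0 := by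
      intro h
      have := congrArg Complex.im h
      simp at this
    have e : Cp I (y : ℂ) - Cp I ((0 : ℝ) : ℂ) = 2 * (y : ℂ) / ((y : ℂ) + Complex.I) := by
      unfold Cp
      rw [hI, coe_I, Complex.ofReal_zero]
      simp only [sub_neg_eq_add, zero_sub, zero_add]
      rw [neg_div, div_self Complex.I_ne_zero]
      field_simp
      ring
    rw [e, norm_div, norm_mul, Complex.norm_real, Real.norm_eq_abs, abs_of_pos hy0,
      Complex.norm_ofNat]
    have h2 : ‖(y : ℂ) + Complex.I‖ ≤ 2 := by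
      refine (norm_add_le _ _).trans ?_
      rw [Complex.norm_real, Complex.norm_I, Real.norm_eq_abs, abs_of_pos hy0]
      linarith
    have h3 : 0 < ‖(y : ℂ) + Complex.I‖ := norm_pos_iff.2 hne
    rw [le_div_iff₀ h3]
    nlinarith
  have hlim : Tendsto (fun n : ℕ => (n : ℝ) * q ^ n) atTop (𝓝 0) :=
    tendsto_self_mul_const_pow_of_lt_one hq0.le hq1
  have h2 : ∀ᶠ n : ℕ in atTop, (n : ℝ) * q ^ n < 1 / (2 * M) :=
    hlim.eventually (gt_mem_nhds (by positivity))
  obtain ⟨n, hn1, hn2⟩ := (h2.and (eventually_ge_atTop 1)).exists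
  have hn' : (1 : ℝ) ≤ n := by exact_mod_cast hn2
  have h3 := key n hn2
  rw [div_le_iff₀ (by linarith)] at h3
  rw [lt_div_iff₀ (by positivity)] at hn1
  nlinarith

end Pool.Agent.TS
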