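import Pool.Agent.TS.Hyp
import Pool.Agent.TS.Defs

/-!
Quasi-isometric embeddings of quasi-geodesic spaces into the hyperbolic plane whose limit set
is everything are coarsely surjective.
-/

namespace Pool.Agent.TS

open UpperHalfPlane Filter Topology
open scoped ComplexConjugate

lemma Cp_t1 (p : ℍ) : Cp p ((p.re + p.im : ℝ) : ℂ) = -Complex.I := by
  have h : ((p.re + p.im : ℝ) : ℂ) - conj (p : ℂ) ≠ 0 := sub_conj_ne p (by simp)
  have hp : (p : ℂ) = (p.re : ℂ) + (p.im : ℂ) * Complex.I := by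
    apply Complex.ext <;> simp
  have hp' : conj (p : ℂ) = (p.re : ℂ) - (p.im : ℂ) * Complex.I := by
    apply Complex.ext <;> simp
  unfold Cp
  rw [div_eq_iff h, hp', hp]
  push_cast
  linear_combination ((p.im : ℂ)) * Complex.I_sq

lemma Cp_t2 (p : ℍ) : Cp p ((p.re - p.im : ℝ) : ℂ) = Complex.I := by
  have h : ((p.re - p.im : ℝ) : ℂ) - conj (p : ℂ) ≠ 0 := sub_conj_ne p (by simp)
  have hp : (p : ℂ) = (p.re : ℂ) + (p.im : ℂ) * Complex.I := by
    apply Complex.ext <;> simp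
  have hp' : conj (p : ℂ) = (p.re : ℂ) - (p.im : ℂ) * Complex.I := by
    apply Complex.ext <;> simp
  unfold Cp
  rw [div_eq_iff h, hp', hp]
  push_cast
  linear_combination (-(p.im : ℂ)) * Complex.I_sq

lemma exists_far (u : ℂ) : 1 ≤ ‖u - Complex.I‖ ∨ 1 ≤ ‖u - -Complex.I‖ := by
  by_contra h
  push Not at h
  obtain ⟨h1, h2⟩ := h
  have e1 : ‖u - Complex.I‖ ^ 2 = u.re ^ 2 + (u.im - 1) ^ 2 := by
    rw [Complex.sq_norm, Complex.normSq_apply]; simp; ring
  have e2 : ‖u - -Complex.I‖ ^ 2 = u.re ^ 2 + (u.im + 1) ^ 2 := by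
    rw [Complex.sq_norm, Complex.normSq_apply]; simp; ring
  have n1 := norm_nonneg (u - Complex.I)
  have n2 := norm_nonneg (u - -Complex.I)
  nlinarith [sq_nonneg u.re, sq_nonneg u.im]

lemma Cp_contAt (p : ℍ) (t : ℝ) : ContinuousAt (Cp p) (t : ℂ) := by
  unfold Cp
  apply ContinuousAt.div (by fun_prop) (by fun_prop)
  exact sub_conj_ne p (by simp)

/-- Coarse surjectivity. -/
theorem coarse_surj {Z : Type*} [MetricSpace Z] [Nonempty Z] (hZ : QuasiGeodesicSpace Z)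
    {f : Z → ℍ} {L A : ℝ} (hL : 1 ≤ L) (hA : 0 ≤ A)
    (hU : ∀ x y, dist (f x) (f y) ≤ L * dist x y + A)
    (hlow : ∀ x y, dist x y / L - A ≤ dist (f x) (f y))
    (hB : ∀ t : ℝ, ∀ ε > 0, ∃ x, ‖((f x : ℍ) : ℂ) - t‖ < ε) :
    ∃ D₀ : ℝ, ∀ p : ℍ, ∃ x, dist (f x) p ≤ D₀ := by
  obtain ⟨c, hc, hpath⟩ := hZ
  set s := L * (2 * c) + A with hs
  set q := Real.exp (-(1 / (4 * c * L))) with hq
  have hβ : 0 < 1 / (4 * c * L) := by positivity
  have hq0 : 0 < q := Real.exp_pos _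
  have hq1 : q < 1 := by rw [hq]; exact Real.exp_lt_one_iff.2 (by linarith)
  have hs0 : 0 < s := by positivity
  have hsinh : 0 < Real.sinh (s / 2) := Real.sinh_pos_iff.2 (by positivity)
  set M := 4 * Real.sinh (s / 2) * Real.exp ((c / L + A + 1) / 4) / (1 - q) with hM
  have h1q : 0 < 1 - q := by linarith
  have hM0 : 0 < M := by positivity
  refine ⟨2 * Real.log (2 * M + 1), fun p => ?_⟩
  by_contra hcon
  push Not at hcon
  set D₀ := 2 * Real.log (2 * M + 1) with hD₀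
  set S := Set.range fun x => dist (f x) p with hS
  have hSne : S.Nonempty := Set.range_nonempty _
  have hSbdd : BddBelow S := ⟨D₀, by rintro _ ⟨x, rfl⟩; exact (hcon x).le⟩
  set D := sInf S with hD
  have hDle : ∀ x, D ≤ dist (f x) p := fun x => csInf_le hSbdd ⟨x, rfl⟩
  have hD0 : D₀ ≤ D := le_csInf hSne (by rintro _ ⟨x, rfl⟩; exact (hcon x).le)
  obtain ⟨_, ⟨zp, rfl⟩, hzp⟩ := exists_lt_of_csInf_lt hSne (by linarith : sInf S < D + 1)
  simp only at hzp
  -- a far away target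
  obtain ⟨t, ht⟩ : ∃ t : ℝ, 1 ≤ ‖Cp p (f zp) - Cp p t‖ := by
    rcases exists_far (Cp p (f zp)) with h | h
    · exact ⟨p.re - p.im, by rw [Cp_t2]; exact h⟩
    · exact ⟨p.re + p.im, by rw [Cp_t1]; exact h⟩
  obtain ⟨δ, hδ, hcont⟩ := Metric.continuousAt_iff.1 (Cp_contAt p t) (1/2) (by norm_num)
  obtain ⟨x, hx⟩ := hB t δ hδ
  have hx' := hcont (by rw [Complex.dist_eq]; exact hx)
  rw [Complex.dist_eq] at hx'
  obtain ⟨n, γ, hγ0, hγn, hγ⟩ := hpath zp x
  set u : ℕ → ℂ := fun k => Cp p (f (γ k)) with hu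
  have hlarge : 1/2 < ‖u 0 - u (0 + n)‖ := by
    have e : Cp p (f zp) - Cp p t = (u 0 - u (0 + n)) + (Cp p (f x) - Cp p t) := by
      rw [hu]
      simp only [hγ0, zero_add, hγn]
      ring
    rw [e] at ht
    have := norm_add_le (u 0 - u (0 + n)) (Cp p (f x) - Cp p t)
    linarith
  have hr : ∀ k, k ≤ n → D / 2 + k / (4 * c * L) - (c / L + A + 1) / 4 ≤
      dist (f (γ k)) p := by
    intro k hk
    have h1 := hDle (γ k)
    have h2 := hlow (γ 0) (γ k)
    have h3 := (hγ 0 k (Nat.zero_le _) hk).1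
    have h4 : |((0 : ℕ) : ℝ) - k| = k := by
      rw [Nat.cast_zero, zero_sub, abs_neg, abs_of_nonneg (Nat.cast_nonneg k)]
    rw [h4] at h3
    have h5 : (k / c - c) / L ≤ dist (γ 0) (γ k) / L := by gcongr
    have h6 : dist (f (γ 0)) (f (γ k)) ≤ dist (f (γ 0)) p + dist (f (γ k)) p :=
      dist_triangle_right _ _ _
    rw [← hγ0] at hzp
    have e : (k / c - c) / L = 4 * (k / (4 * c * L)) - c / L := by
      field_simp
    rw [e] at h5
    linarith
  have hstep : ∀ k, 0 ≤ k → k < 0 + n → ‖u k - u (k + 1)‖ ≤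
      (4 * Real.sinh (s / 2) * Real.exp ((c / L + A + 1) / 4 - D / 2)) * q ^ k := by
    intro k _ hk
    have hk' : k < n := by omega
    have h1 : dist (f (γ k)) (f (γ (k + 1))) ≤ s := by
      refine (hU _ _).trans ?_
      have h2 := (hγ k (k + 1) hk'.le hk').2
      have h3 : |(k : ℝ) - ((k + 1 : ℕ) : ℝ)| = 1 := by
        push_cast
        rw [show (k : ℝ) - (k + 1) = -1 by ring]; norm_num
      rw [h3] at h2
      have : L * dist (γ k) (γ (k + 1)) ≤ L * (2 * c) := by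
        apply mul_le_mul_of_nonneg_left _ (by linarith)
        linarith
      linarith
    have h2 := hr k hk'.le
    have h3 := hr (k + 1) hk'
    have h4 : ((k : ℝ)) / (4 * c * L) ≤ ((k + 1 : ℕ) : ℝ) / (4 * c * L) := by
      gcongr
      linarith
    have h5 := Cp_step h1 h2 (by linarith)
    refine h5.trans (le_of_eq ?_)
    rw [hq, ← Real.exp_nat_mul, mul_assoc (4 * Real.sinh (s / 2)), ← Real.exp_add]
    congr 2
    field_simp
    ring
  have htel := geom_tel (by positivity) hq0.le hq1 0 n hstep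
  rw [pow_zero, mul_one] at htel
  have e : 4 * Real.sinh (s / 2) * Real.exp ((c / L + A + 1) / 4 - D / 2) / (1 - q) =
      M * Real.exp (-(D / 2)) := by
    rw [hM, sub_eq_add_neg, Real.exp_add]; ring
  rw [e] at htel
  have hexp : Real.exp (-(D / 2)) ≤ (2 * M + 1)⁻¹ := by
    rw [← Real.exp_log (by positivity : 0 < (2 * M + 1)⁻¹), Real.log_inv]
    apply Real.exp_le_exp.2
    rw [hD₀] at hD0
    linarith
  have h1 : M * Real.exp (-(D / 2)) ≤ M * (2 * M + 1)⁻¹ := mul_le_mul_of_nonneg_left hexp hM0.le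
  have h2 : M * (2 * M + 1)⁻¹ < 1/2 := by
    rw [← div_eq_mul_inv, div_lt_iff₀ (by positivity)]
    linarith
  linarith

end Pool.Agent.TS
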